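import Pool.Agent.Helper35.HC.StE

/-!
# Project HC (MP_925021_gt), module CDG: gradients and derivatives in the chart
-/

set_option autoImplicit false

namespace Helper65.HC

open Helper35.HC Helper35.HSF Helper35.MS Helper35.PI Helper35.PI2 Helper32.CL
open scoped ContDiff Manifold Topology ENNReal BigOperators
open MeasureTheory Set Filter

/-- a vector is the combination of the coordinate vectors -/
theorem eq_sum_ee {k : ℕ} (h : EE k) : h = ∑ m, h m • (ee m : EE k) := by
  ext i
  simp [ee, Pi.single_apply]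

/-- a linear map on coordinates -/
theorem lin_sum {k : ℕ} {V : Type*} [NormedAddCommGroup V] [NormedSpace ℝ V] (L : EE k →L[ℝ] V)
    (h : EE k) : L h = ∑ m, h m • L (ee m) := by
  conv_lhs => rw [eq_sum_ee h]
  rw [map_sum]
  exact Finset.sum_congr rfl fun m _ => by rw [map_smul]

theorem hCDG : StI2J → StI3J → StFR → StNR → StCDG := by
  intro hI2J hI3J hFR hNR n N M _ _ _ J F hF t ht q
  set f : EE n → EE N := loc (n := n) F q t with hf
  set y : EE n := chartAt (EE n) q q with hy
  have hLI : LI f y := hF.imm q t ht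
  have hyt : y ∈ (chartAt (EE n) q).target := mem_chart_target (EE n) q
  have hcd : ∀ h, cd n (fun p => F p t) q h = ∑ m, h m • dv1 f y m := fun h =>
    lin_sum (cd n (fun p => F p t) q) h
  have hdiff : DifferentiableAt ℝ f y := by
    have h1 := hI2J n N M J F hF q
    have h2 : ContDiffAt ℝ ∞ (fun z : EE n × ℝ => F ((chartAt (EE n) q).symm z.1) z.2) (y, t) :=
      h1.contDiffAt (((chartAt (EE n) q).open_target.prod hF.op).mem_nhds ⟨hyt, ht⟩)
    have h3 : ContDiffAt ℝ ∞ (fun z : EE n => ((z, t) : EE n × ℝ)) y :=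
      contDiffAt_id.prodMk contDiffAt_const
    have h4 : ContDiffAt ℝ ∞ (fun z : EE n => F ((chartAt (EE n) q).symm z) t) y :=
      ContDiffAt.comp (g := fun z : EE n × ℝ => F ((chartAt (EE n) q).symm z.1) z.2)
        (f := fun z : EE n => ((z, t) : EE n × ℝ)) y h2 h3
    exact h4.differentiableAt (by simp)
  have hTS : TS (n := n) F q t = Submodule.span ℝ (range fun i : Fin n => dv1 f y i) := rfl
  have h1 : ∀ h, cd n (fun p => F p t) q h ∈ TS (n := n) F q t := by
    intro h
    rw [hcd h, hTS]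
    exact Submodule.sum_mem _ fun m _ => Submodule.smul_mem _ _ (Submodule.subset_span ⟨m, rfl⟩)
  have h2 : ∀ v ∈ TS (n := n) F q t, ∃ h, cd n (fun p => F p t) q h = v := by
    intro v hv
    rw [hTS, Submodule.mem_span_range_iff_exists_fun] at hv
    obtain ⟨c, hc⟩ := hv
    refine ⟨WithLp.toLp 2 c, ?_⟩
    rw [hcd]
    exact hc
  have h3 : ∀ h, cd n (fun p => F p t) q h = 0 → h = 0 := by
    intro h hh
    rw [hcd h] at hh
    have h5 := (Fintype.linearIndependent_iff.1 hLI) (fun m => h m) hh
    ext i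
    exact h5 i
  have hdet : IsUnit (gram f y).det := (hFR n N f y hLI).2.1
  have hinv : (gram f y)⁻¹ * gram f y = 1 := Matrix.nonsing_inv_mul _ hdet
  have h4 : ∀ (φ : M → ℝ) (h : EE n),
      cd n φ q h = inner ℝ (gdM n F t φ q) (cd n (fun p => F p t) q h) := by
    intro φ h
    have e1 : ∀ j : Fin n, (inner ℝ (gdM n F t φ q) (dv1 f y j) : ℝ) = cd n φ q (ee j) := by
      intro j
      have e2 : gdM n F t φ q = ∑ k, ∑ m, ((gram f y)⁻¹ k m * cd n φ q (ee k)) • dv1 f y m := rfl
      rw [e2, sum_inner]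
      have e3 : ∀ k : Fin n,
          (inner ℝ (∑ m, ((gram f y)⁻¹ k m * cd n φ q (ee k)) • dv1 f y m) (dv1 f y j) : ℝ)
            = cd n φ q (ee k) * (1 : Matrix (Fin n) (Fin n) ℝ) k j := by
        intro k
        rw [sum_inner, ← hinv, Matrix.mul_apply, Finset.mul_sum]
        refine Finset.sum_congr rfl fun m _ => ?_
        rw [real_inner_smul_left]
        have e4 : (inner ℝ (dv1 f y m) (dv1 f y j) : ℝ) = gram f y m j := rfl
        rw [e4]
        ring
      rw [Finset.sum_congr rfl fun k _ => e3 k]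
      simp [Matrix.one_apply]
    rw [hcd h, inner_sum, lin_sum (cd n φ q) h]
    refine Finset.sum_congr rfl fun m _ => ?_
    rw [real_inner_smul_right, e1 m, smul_eq_mul]
  refine ⟨hdiff, h1, h2, h3, h4, ?_⟩
  intro K u hu B hB hw h
  by_cases h0 : cd n u q h = 0
  · rw [h0, norm_zero]
    exact mul_nonneg hB (norm_nonneg _)
  · have hn : 0 < ‖cd n u q h‖ := norm_pos_iff.2 h0
    set w : EE K := (1 / ‖cd n u q h‖) • cd n u q h with hwd
    have hw1 : ‖w‖ ≤ 1 := by
      rw [hwd, norm_smul, Real.norm_of_nonneg (by positivity)]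
      rw [one_div, inv_mul_cancel₀ hn.ne']
    have e1 : cd n (fun p => (inner ℝ (u p) w : ℝ)) q h = inner ℝ (cd n u q h) w := by
      have h5 := hu.hasFDerivAt
      have h6 : HasFDerivAt (fun z => (inner ℝ (u ((chartAt (EE n) q).symm z)) w : ℝ))
          ((innerSL ℝ w).comp (cd n u q)) (chartAt (EE n) q q) := by
        have h7 := ((innerSL ℝ w).hasFDerivAt (x := u ((chartAt (EE n) q).symm
          (chartAt (EE n) q q)))).comp (chartAt (EE n) q q) h5
        refine h7.congr_of_eventuallyEq (Eventually.of_forall fun z => ?_)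
        simp only [Function.comp_apply, innerSL_apply_apply]
        rw [real_inner_comm]
      have h8 : cd n (fun p => (inner ℝ (u p) w : ℝ)) q = (innerSL ℝ w).comp (cd n u q) :=
        h6.fderiv
      rw [h8, ContinuousLinearMap.comp_apply, innerSL_apply_apply, real_inner_comm]
    have e2 : (inner ℝ (cd n u q h) w : ℝ) = ‖cd n u q h‖ := by
      rw [hwd, real_inner_smul_right, real_inner_self_eq_norm_sq]
      field_simp
    calc ‖cd n u q h‖ = inner ℝ (gdM n F t (fun p => (inner ℝ (u p) w : ℝ)) q)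
          (cd n (fun p => F p t) q h) := by rw [← h4, e1, e2]
      _ ≤ ‖gdM n F t (fun p => (inner ℝ (u p) w : ℝ)) q‖ * ‖cd n (fun p => F p t) q h‖ :=
        real_inner_le_norm _ _
      _ ≤ B * ‖cd n (fun p => F p t) q h‖ :=
        mul_le_mul_of_nonneg_right (hw w hw1) (norm_nonneg _)

end Helper65.HC
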